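import Pool.Agent.MWN.StmtsH

/-!
# Squad MWN (MP_23468a_al), row N3D: clause c3d
-/

set_option autoImplicit false

namespace Pool.Agent.MWN.H66D

open Pool.Agent.Helper14_MV Pool.Agent.Helper2_MV Pool.Agent.MVO Pool.Agent.MWL Pool.Agent.MWS
  Pool.Agent.MWF Pool.Agent.MWN

/-- three blocks -/
def b3 (p q r : List ℕ) : ℕ → List ℕ := fun j => if j = 0 then p else if j = 1 then q else
  if j = 2 then r else []

theorem lr_of {β : FIC} (hβ : HB β) : LR 1 (FC.ofFIC β) := by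
  refine ⟨le_rfl, ?_, ?_⟩
  · have h : RR β (mw 0 (sg 0 2)) (mw 0 (sg 0 (1 + 2))) := by
      have e1 : mw 0 (sg 0 2) = [0, 0] := rfl
      have e2 : mw 0 (sg 0 (1 + 2)) = [0, 0, 0] := rfl
      rw [e1, e2]
      exact hβ.ap
    exact h
  · have h : RR β (mw 1 (v2 2 1)) (mw 1 (v2 2 (1 + 1))) := by
      have e1 : mw 1 (v2 2 1) = [0, 0, 2, 0] := rfl
      have e2 : mw 1 (v2 2 (1 + 1)) = [0, 0, 2, 0, 0] := rfl
      rw [e1, e2]
      exact hβ.rr
    exact h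

theorem ok_of (w : List ℕ) (hw : w = [1, 0, 0] ∨ w = [0, 0, 1] ∨ w = [0, 1, 0]) :
    OkB 2 (b3 [0, 0] [1] w) ∧ Two01 2 (b3 [0, 0] [1] w) ∧
      (∀ j, ty (b3 [0, 0] [1] w) 0 j = v3 2 0 2 j) ∧
      (∀ j, ty (b3 [0, 0] [1] w) 1 j = v3 0 1 1 j) := by
  have h0 : ∀ j, ty (b3 [0, 0] [1] w) 0 j = v3 2 0 2 j := by
    intro j
    unfold ty b3 v3
    rcases hw with rfl | rfl | rfl <;> split_ifs <;> rfl
  have h1 : ∀ j, ty (b3 [0, 0] [1] w) 1 j = v3 0 1 1 j := by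
    intro j
    unfold ty b3 v3
    rcases hw with rfl | rfl | rfl <;> split_ifs <;> rfl
  have h2 : Two01 2 (b3 [0, 0] [1] w) := by
    intro j _ c hc
    unfold b3 at hc
    rcases hw with rfl | rfl | rfl <;> split_ifs at hc <;> simp at hc <;> omega
  refine ⟨⟨?_, ?_⟩, h2, h0, h1⟩
  · intro j hj c hc
    have := h2 j hj c hc
    unfold NS
    omega
  · intro j hj c hc
    rcases h2 j hj c hc with rfl | rfl
    · have e : deg 2 (ty (b3 [0, 0] [1] w) 0) = deg 2 (v3 2 0 2) := by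
        unfold deg
        exact Finset.sum_congr rfl fun i _ => h0 i
      have e2 : deg 2 (v3 2 0 2) = 4 := rfl
      have e3 : 2 ≤ deg 2 (ty (b3 [0, 0] [1] w) 0) := by rw [e, e2]; norm_num
      exact e3
    · have e : deg 2 (ty (b3 [0, 0] [1] w) 1) = deg 2 (v3 0 1 1) := by
        unfold deg
        exact Finset.sum_congr rfl fun i _ => h1 i
      have e2 : deg 2 (v3 0 1 1) = 2 := rfl
      have e3 : 2 ≤ deg 2 (ty (b3 [0, 0] [1] w) 1) := by rw [e, e2]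
      exact e3

theorem wo_eq (w : List ℕ) (hw : w = [1, 0, 0] ∨ w = [0, 0, 1] ∨ w = [0, 1, 0]) (j : ℕ) :
    wo 1 (ty (b3 [0, 0] [1] w) 0) j = v3 2 0 2 j := by
  unfold wo
  by_cases h : j = 1
  · rw [if_pos h, h]
    rfl
  · rw [if_neg h]
    exact (ok_of w hw).2.2.1 j

/-- the states collapse if `F` holds -/
theorem key (nco : NcoStmt) {β : FIC} (hβ : HB β) (hI : Iso3 β) (hF : Oh β Bit.F) (w : List ℕ)
    (hw : w = [1, 0, 0] ∨ w = [0, 0, 1] ∨ w = [0, 1, 0]) :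
    RR β (asm 2 (b3 [0, 0] [1] w)) (asm 2 (b3 [0, 0] [1] [0, 1, 0])) := by
  obtain ⟨o1, o2, o3, o4⟩ := ok_of w hw
  obtain ⟨p1, p2, p3, p4⟩ := ok_of [0, 1, 0] (Or.inr (Or.inr rfl))
  have hdeg : ∀ w' : List ℕ, (w' = [1, 0, 0] ∨ w' = [0, 0, 1] ∨ w' = [0, 1, 0]) →
      2 ≤ deg 2 (wo 1 (ty (b3 [0, 0] [1] w') 0)) := by
    intro w' hw'
    have e : deg 2 (wo 1 (ty (b3 [0, 0] [1] w') 0)) = deg 2 (v3 2 0 2) := by
      unfold deg
      exact Finset.sum_congr rfl fun i _ => wo_eq w' hw' i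
    have e2 : deg 2 (v3 2 0 2) = 4 := rfl
    rw [e, e2]
    norm_num
  refine nco β hβ hI 2 _ _ 0 1 1 o1 p1 o2 p2 (fun j _ => Or.inl ?_) (fun j _ => Or.inl ?_)
    (Or.inl ⟨rfl, rfl⟩) (by norm_num) ?_ (hdeg w hw) (hdeg _ (Or.inr (Or.inr rfl))) ?_
  · rw [o3, p3]
  · rw [o4, p4]
  · change 1 ∈ [1]
    exact List.mem_singleton.2 rfl
  · refine (FC.ofFIC β).ext (a := v3 2 0 2) (b := ad 1 (v3 2 0 2) 1) ?_ ?_ hF
    · intro j _
      exact (wo_eq w hw j).symm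
    · intro j _
      unfold ad
      rw [wo_eq w hw j]

theorem pre0 {β : FIC} {u v : List ℕ} (h : RR β u v) : RR β (0 :: u) (0 :: v) :=
  (RR.refl (β := β) [0]).append h

/-- **N3D** -/
theorem n3d (nph : NphStmt) (ncx : NcxStmt) (nco : NcoStmt) (arr : Pool.Agent.MWL.ArrStmt) :
    N3dStmt := by
  intro β hβ hI hM hD st
  by_contra hC
  have hF : ¬ Oh β Bit.F := by
    intro hF
    apply hC
    cases st with
    | false =>
      have h := key nco hβ hI hF [0, 0, 1] (Or.inr (Or.inl rfl))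
      have e1 : asm 2 (b3 [0, 0] [1] [0, 0, 1]) = [0, 0, 2, 1, 3, 0, 0, 1] := by decide
      have e2 : asm 2 (b3 [0, 0] [1] [0, 1, 0]) = [0, 0, 2, 1, 3, 0, 1, 0] := by decide
      rw [e1, e2] at h
      exact h
    | true =>
      have h := key nco hβ hI hF [1, 0, 0] (Or.inl rfl)
      have e1 : asm 2 (b3 [0, 0] [1] [1, 0, 0]) = [0, 0, 2, 1, 3, 1, 0, 0] := by decide
      have e2 : asm 2 (b3 [0, 0] [1] [0, 1, 0]) = [0, 0, 2, 1, 3, 0, 1, 0] := by decide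
      rw [e1, e2] at h
      exact h
  obtain ⟨a1, a2, -⟩ := arr 1 (FC.ofFIC β) (lr_of hβ)
  have hE : ¬ Oh β Bit.E := fun h => hF (a1 h)
  have hG : ¬ Oh β Bit.G := fun h => hF (a2 h)
  have c1 : Clo β 2 (cd3 Cd.one Cd.z Cd.pos) := by
    refine ncx β hβ hI [8, 3] 2 _ ?_ (by decide +kernel)
    intro x hx
    simp only [List.mem_cons, List.not_mem_nil, or_false] at hx
    rcases hx with rfl | rfl
    · exact Or.inl rfl
    · exact Or.inr (Or.inr (Or.inr (Or.inr (Or.inl ⟨rfl, hD⟩))))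
  have c2 : Clo β 2 (cd3 Cd.z Cd.one Cd.one) := by
    refine ncx β hβ hI [8] 2 _ ?_ (by decide +kernel)
    intro x hx
    exact Or.inl (List.mem_singleton.1 hx)
  have c3 : Clo β 2 (cd3 Cd.pos Cd.z Cd.pos) := by
    refine ncx β hβ hI [8, 3, 1, 0, 2] 2 _ ?_ (by decide +kernel)
    intro x hx
    simp only [List.mem_cons, List.not_mem_nil, or_false] at hx
    rcases hx with rfl | rfl | rfl | rfl | rfl
    · exact Or.inl rfl
    · exact Or.inr (Or.inr (Or.inr (Or.inr (Or.inl ⟨rfl, hD⟩))))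
    · exact Or.inr (Or.inr (Or.inl ⟨rfl, hF⟩))
    · exact Or.inr (Or.inl ⟨rfl, hE⟩)
    · exact Or.inr (Or.inr (Or.inr (Or.inl ⟨rfl, hG⟩)))
  have hp := nph β hβ hI hM 2 2 (cd3 Cd.one Cd.z Cd.pos) (cd3 Cd.z Cd.one Cd.one)
    (cd3 Cd.pos Cd.z Cd.pos) (cd3 Cd.z Cd.one Cd.one) st (v3 2 0 2) (v3 1 0 2) (v3 0 1 1)
    (v3 0 1 1) (by decide +kernel) (by decide) (by decide) (by decide) (by decide) c1 c2 c3 c2
  cases st with
  | false =>
    rcases hp with h | h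
    · have e1 : asm 2 (cs 2 (cd3 Cd.one Cd.z Cd.pos) (cd3 Cd.z Cd.one Cd.one) false) =
          [0, 2, 1, 3, 0, 0, 1] := by decide
      have e2 : asm 2 (cn 2 (cd3 Cd.one Cd.z Cd.pos) (cd3 Cd.z Cd.one Cd.one) false) =
          [0, 2, 1, 3, 0, 1, 0] := by decide
      rw [e1, e2] at h
      exact hC (pre0 h)
    · have e1 : asm 2 (cs 2 (cd3 Cd.pos Cd.z Cd.pos) (cd3 Cd.z Cd.one Cd.one) false) =
          [0, 0, 2, 1, 3, 0, 0, 1] := by decide
      have e2 : asm 2 (cn 2 (cd3 Cd.pos Cd.z Cd.pos) (cd3 Cd.z Cd.one Cd.one) false) =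
          [0, 0, 2, 1, 3, 0, 1, 0] := by decide
      rw [e1, e2] at h
      exact hC h
  | true =>
    rcases hp with h | h
    · have e1 : asm 2 (cs 2 (cd3 Cd.one Cd.z Cd.pos) (cd3 Cd.z Cd.one Cd.one) true) =
          [0, 2, 1, 3, 1, 0, 0] := by decide
      have e2 : asm 2 (cn 2 (cd3 Cd.one Cd.z Cd.pos) (cd3 Cd.z Cd.one Cd.one) true) =
          [0, 2, 1, 3, 0, 1, 0] := by decide
      rw [e1, e2] at h
      exact hC (pre0 h)
    · have e1 : asm 2 (cs 2 (cd3 Cd.pos Cd.z Cd.pos) (cd3 Cd.z Cd.one Cd.one) true) =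
          [0, 0, 2, 1, 3, 1, 0, 0] := by decide
      have e2 : asm 2 (cn 2 (cd3 Cd.pos Cd.z Cd.pos) (cd3 Cd.z Cd.one Cd.one) true) =
          [0, 0, 2, 1, 3, 0, 1, 0] := by decide
      rw [e1, e2] at h
      exact hC h

end Pool.Agent.MWN.H66D
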