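import Pool.Agent.MWN.StmtsH

/-!
# Squad MWN (MP_23468a_al), row NDD: the identity `D 0` in two letter words
-/

set_option autoImplicit false

namespace Pool.Agent.MWN.H66

open Pool.Agent.Helper14_MV Pool.Agent.Helper2_MV Pool.Agent.MVO Pool.Agent.MWL Pool.Agent.MWS
  Pool.Agent.MWF Pool.Agent.MWN

/-- **NDD** -/
theorem ndd : NddStmt := by
  intro β hβ hD p w q c
  have e1 : mw 1 (Bit.D 0).a = [0, 2, 0, 0] := rfl
  have e2 : mw 1 (ad 1 (Bit.D 0).a 0) = [0, 0, 0, 2, 0, 0] := rfl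
  have h1 : RR β [0, 2, 0, 0] [0, 0, 0, 2, 0, 0] := by
    have h : RR β (mw 1 (Bit.D 0).a) (mw 1 (ad 1 (Bit.D 0).a 0)) := hD
    rw [e1, e2] at h
    exact h
  have h2 := h1.sub (fun x => if x = 0 then [c] else w)
  have h3 : RR β (c :: (w ++ [c, c])) ([c, c, c] ++ (w ++ [c, c])) := by
    simpa using h2
  have h4 : RR β [c, c] [c, c, c] := hβ.ap.sub (fun _ => [c])
  have h5 : RR β (c :: (w ++ [c, c])) ([c, c] ++ (w ++ [c, c])) :=
    β.trans h3 ((h4.symm).append (RR.refl _))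
  have h6 := ((RR.refl (β := β) p).append h5).append (RR.refl (β := β) q)
  have e3 : p ++ c :: (w ++ [c, c]) ++ q = p ++ c :: (w ++ c :: c :: q) := by simp
  have e4 : p ++ ([c, c] ++ (w ++ [c, c])) ++ q = p ++ c :: c :: (w ++ c :: c :: q) := by simp
  rw [e3, e4] at h6
  exact h6

end Pool.Agent.MWN.H66
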